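import Pool.Agent.H13.Cairns1

namespace Pool.Agent.Results.MP_cc703c_co.Four
open Pool.Agent.H13.Cairns Finset

theorem result : ∃ (p : Fin 10 ↪ (Fin 4 → ℝ)) (K : Geometry.SimplicialComplex ℝ (Fin 4 → ℝ)),
    K.faces = {S | ∃ s, Face s ∧ S = s.map p} := by
  classical
  have c3 : ∀ m ∈ maxF, #m ≤ 3 := by
    rw [maxF_eq]
    intro m hm
    obtain ⟨l, hl, rfl⟩ := List.mem_map.1 hm
    have : ∀ l ∈ maxL, l.length ≤ 3 := by decide
    exact (List.toFinset_card_le l).trans (this l hl)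
  refine ⟨⟨pt, pt_inj⟩, ⟨⟨{S | ∃ s, Face s ∧ S = s.map ⟨pt, pt_inj⟩}, ?_⟩, ?_, ?_⟩, rfl⟩
  · rintro S ⟨s, ⟨h1, m, hm, h2⟩, rfl⟩
    refine ⟨by simpa using h1, fun T hT hne => ?_⟩
    obtain ⟨t, ht, rfl⟩ := subset_map_iff.1 hT
    exact ⟨t, ⟨by simpa using hne, m, hm, ht.trans h2⟩, rfl⟩
  · rintro S ⟨s, ⟨-, m, hm, h2⟩, rfl⟩
    exact indep' s ((card_le_card h2).trans ((c3 m hm).trans (by norm_num)))
  · rintro S T ⟨s, ⟨-, m, hm, h1⟩, rfl⟩ ⟨t, ⟨-, n, hn, h2⟩, rfl⟩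
    rcases chk m hm n hn with h | ⟨r, σ, h3, h4⟩
    · rw [(indep' (m ∪ n) h).convexHull_inter (map_subset_map.2 (h1.trans subset_union_left))
        (map_subset_map.2 (h2.trans subset_union_right))]
    · rw [sep s t σ r (fun i hi => h3 i (h1 hi)) fun i hi => h4 i (h2 hi)]
      exact Set.empty_subset _

end Pool.Agent.Results.MP_cc703c_co.Four
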